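import Pool.Agent.H858.CG.Deg

/-!
# The distances of the Kunneth components from the algebraic classes, on products

Let `W` be a Weil cohomology theory with coefficient field `K` (characteristic zero) for smooth
projective varieties over a field, for example `ℓ`-adic cohomology. For a variety `Y` and a set `J` of
degrees let `π_J = ∑_{j ∈ J} π_j`, and let `d_J(Y)` be the smallest rank of an operator `π_J - u` on
`H(Y)`, where `u` is a `K`-combination of algebraic cycles of codimension `dim Y` on `Y × Y`. So
`d_J(Y) = 0` if and only if `π_J` is algebraic. Let `r_q(V)` be the rank of the cycles of codimension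
`q` on `V` modulo numerical equivalence and `b_j(V)` the Betti numbers.

* `∑_q r_q(V) d_{J - 2 q}(Y) ≤ d_J(Y × V)` for all `Y`, `V`, `J`.
* `d_J(Y × V) ≤ ∑_j b_j(V) d_{J - j}(Y)` if the Kunneth components of `V` are algebraic.
* `d_J(Y × V) = ∑_q r_q(V) d_{J - 2 q}(Y)` if all cohomology of `V` is algebraic (projective spaces,
  Grassmannians, toric varieties). For the polynomials `D_Y(t) = ∑ d_{i}(Y) t^i` this says
  `D_{Y × V}(t) = D_Y(t) P_V(t)` with the Poincaré polynomial `P_V` of `V`.
* If one combination of cycles on `(Y × V)^2` differs from `π_i` by an operator of rank less than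
  `r_q(V)`, then `π_{i - 2 q}` of `Y` is algebraic.

The lower bound: dual systems of algebraic classes on `V` turn an operator `θ` on `H(Y × V)` into a
matrix of algebraic operators of various degrees on `H(Y)`, and `θ - π_J` has at least the rank of the
matrix `(θ_st - δ_st π_{J - 2 q_s})`. By induction: the Fitting decomposition of `θ_11` gives an algebraic
idempotent `ε` and an algebraic `ζ` which inverts `θ_11 - π` on the image of `(ε - π)^2`, although
`π = π_{J - 2 q_1}` need not be algebraic; the elimination with the pivot `ζ` changes the other entries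
by algebraic operators only.
-/

open CategoryTheory AlgebraicGeometry Finset

universe u v

namespace Pool.Agent.Results.MP_4ca46c_ag.DistancesOfComponents

open Pool.Agent.H914 Pool.Agent.W534 VarClass Obj WeilCohomology Pool.Agent.H858.CG

variable {k : Type u} [Field k] {𝒱 : VarClass k} {ops : CycleOps 𝒱}

/-- The sum `∑_q r_q(V) d_{J - 2 q}(Y)`. -/
noncomputable def algSum (W : WeilCohomology.{u, v} ops) (Y V : 𝒱.Obj) (J : Set ℕ) : ℕ :=
  ∑ q ∈ range (V.dim + 1), numRank ops V q * degDist W Y (shiftBy J (2 * q))

/-- The sum `∑_j b_j(V) d_{J - j}(Y)`. -/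
noncomputable def bettiSum (W : WeilCohomology.{u, v} ops) (Y V : 𝒱.Obj) (J : Set ℕ) : ℕ :=
  ∑ j ∈ range (2 * V.dim + 1), Module.finrank W.K (W.gr V j) * degDist W Y (shiftBy J j)

/-- The Kunneth components of `V` are algebraic. -/
def KunnethAlgebraic (W : WeilCohomology.{u, v} ops) (V : 𝒱.Obj) : Prop :=
  ∀ j, DegAlgebraic W V {j}

/-- All cohomology of `V` is algebraic: the sum of the ranks `r_q(V)` is the dimension of `H(V)`. -/
def AllAlgebraic (W : WeilCohomology.{u, v} ops) (V : 𝒱.Obj) : Prop :=
  ∑ q ∈ range (V.dim + 1), numRank ops V q = Module.finrank W.K (W.H V)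

/-- **The distances of the Kunneth components from the algebraic classes on products.** -/
theorem result (W : WeilCohomology.{u, v} ops) (Y : 𝒱.Obj) (J : Set ℕ) :
    (degDist W Y J = 0 ↔ DegAlgebraic W Y J) ∧
    ∀ V : 𝒱.Obj, algSum W Y V J ≤ degDist W (Y.prod V) J ∧
      (KunnethAlgebraic W V → degDist W (Y.prod V) J ≤ bettiSum W Y V J) ∧
      (AllAlgebraic W V → degDist W (Y.prod V) J = algSum W Y V J) ∧
      ∀ q ≤ V.dim, degDist W (Y.prod V) J < numRank ops V q →
        DegAlgebraic W Y (shiftBy J (2 * q)) := by
  refine ⟨deg_zero_iff, fun V => ⟨deg_lower W Y V J, deg_upper W Y V J, deg_cellular W Y V J,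
    fun q hq h => ?_⟩⟩
  rw [← deg_zero_iff]
  by_contra hne
  have h1 := deg_lower W Y V J
  have h2 : numRank ops V q * degDist W Y (shiftBy J (2 * q)) ≤
      ∑ q ∈ range (V.dim + 1), numRank ops V q * degDist W Y (shiftBy J (2 * q)) :=
    Finset.single_le_sum (f := fun q => numRank ops V q * degDist W Y (shiftBy J (2 * q)))
      (fun _ _ => Nat.zero_le _) (Finset.mem_range.2 (by omega))
  have h3 : numRank ops V q * 1 ≤ numRank ops V q * degDist W Y (shiftBy J (2 * q)) :=
    Nat.mul_le_mul_left _ (Nat.one_le_iff_ne_zero.2 hne)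
  omega

end Pool.Agent.Results.MP_4ca46c_ag.DistancesOfComponents
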