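import Pool.Agent.H843.Ks3

/-!
# The conjecture C and the symmetries of the algebraic classes

`W` is a Weil cohomology theory with algebraically closed coefficient field on a class of smooth
proper varieties, closed under products and containing a point, for which the algebraic
correspondences of degree zero have rational traces on all `H^i(X)` (for `ℓ`-adic cohomology this
is a theorem of Katz and Messing, with the Weil conjectures and specialisation). The conjecture C
is equivalent to the sign conjecture together with the statement that in every theory which cannot
be distinguished from `W` by Betti numbers and traces of correspondences, the linear automorphisms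
of `H(X)` which fix all algebraic classes on all powers of `X` preserve the degrees. Under the sign
conjecture there is one such theory `Ws`, in which moreover homological and numerical equivalence
coincide, which decides the conjecture C for every single `X`.
-/

open CategoryTheory AlgebraicGeometry

universe u v

namespace Pool.Agent.Results.MP_4ca46c_ag.SymmetriesKeepDegrees

open Pool.Agent.H914 Pool.Agent.H914.VarClass Pool.Agent.H914.VarClass.Obj
  Pool.Agent.H914.WeilCohomology Pool.Agent.H843

variable {k : Type u} [Field k] {𝒱 : VarClass k} {ops : CycleOps 𝒱}

/-- **The conjecture C and the symmetries of the algebraic classes.** -/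
theorem result (W : WeilCohomology.{u, max (u + 1) v} ops) [IsAlgClosed W.K]
    (hP : ∃ P : 𝒱.Obj, P.dim = 0)
    (hdeg : ∀ X : 𝒱.Obj, ∃ z, X.IsCyc X.dim z ∧ X.V.degCycle z ≠ 0)
    (hrat : ∀ X, TracesRational W X) :
    List.TFAE [
      ∀ X, KunnethStd W X,
      SignAll W ∧ ∀ W' : WeilCohomology.{u, max (u + 1) v} ops, IsAlgClosed W'.K →
        Indistinguishable W W' → ∀ X, DegreeRigid W' X,
      SignAll W ∧ ∃ W' : WeilCohomology.{u, max (u + 1) v} ops, IsAlgClosed W'.K ∧
        Indistinguishable W W' ∧ HomEqNumAll W' ∧ ∀ X, DegreeRigid W' X] ∧
    (SignAll W → ∃ Ws : WeilCohomology.{u, max (u + 1) v} ops, IsAlgClosed Ws.K ∧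
      Indistinguishable W Ws ∧ HomEqNumAll Ws ∧ ∀ X, List.TFAE [
        KunnethStd W X,
        DegreeRigid Ws X,
        ∀ W' : WeilCohomology.{u, max (u + 1) v} ops, IsAlgClosed W'.K →
          Indistinguishable W W' → DegreeRigid W' X,
        ∃ W' : WeilCohomology.{u, max (u + 1) v} ops, IsAlgClosed W'.K ∧
          Indistinguishable W W' ∧ HomEqNumAll W' ∧ DegreeRigid W' X]) :=
  Ks.main_std W hP hdeg hrat

end Pool.Agent.Results.MP_4ca46c_ag.SymmetriesKeepDegrees
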